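import Pool.Agent.Q35.TT.Stm4

/-!
# Affine charts of multihomogeneous forms of degree (4,…,4) (job CHF of the project TT of helper35)
-/

set_option autoImplicit false

open MvPolynomial Pool.Agent.Q35.TT

namespace Pool.Agent.Q182.TT.CHF

/-! ### The two indices -/

lemma fin2_cases (b c : Fin 2) : b = c ∨ b = 1 - c := by
  revert b c
  decide

lemma fin2_ne (c : Fin 2) : 1 - c ≠ c := by
  revert c
  decide

lemma prod_two {M : Type} [CommMonoid M] (g : Fin 2 → M) (c : Fin 2) : ∏ b, g b = g c * g (1 - c) := by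
  rw [Fin.prod_univ_two]
  fin_cases c
  · rfl
  · exact mul_comm _ _

lemma add_two (g : Fin 2 → ℕ) (c : Fin 2) : g 0 + g 1 = g c + g (1 - c) := by
  fin_cases c
  · rfl
  · exact add_comm _ _

/-! ### Scaling -/

section scale

variable {R : Type} [CommRing R] {n : ℕ}

/-- The degree in the block `j` is `e j`. -/
def HomE (G : MvPolynomial (Fin n × Fin 2) R) (e : Fin n → ℕ) : Prop :=
  ∀ m ∈ G.support, ∀ j, m (j, 0) + m (j, 1) = e j

lemma eval_scale {G : MvPolynomial (Fin n × Fin 2) R} {e : Fin n → ℕ} (hG : HomE G e)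
    (X : Fin n × Fin 2 → R) (a : Fin n → R) :
    eval (fun p => a p.1 * X p) G = (∏ j, a j ^ e j) * eval X G := by
  rw [eval_eq', eval_eq', Finset.mul_sum]
  refine Finset.sum_congr rfl fun m hm => ?_
  have h1 : ∏ p : Fin n × Fin 2, (a p.1 * X p) ^ m p = (∏ j, a j ^ e j) * ∏ p, X p ^ m p := by
    simp only [mul_pow, Finset.prod_mul_distrib]
    congr 1
    rw [Fintype.prod_prod_type]
    refine Finset.prod_congr rfl fun j _ => ?_
    rw [Fin.prod_univ_two, ← pow_add, hG m hm j]
  rw [h1]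
  ring

end scale

section field

variable {K : Type} [Field K] {n : ℕ}

lemma homE_pderiv {F : MvPolynomial (Fin n × Fin 2) K} (hF : Hom4 F) (k : Fin n) (b : Fin 2) :
    HomE (pderiv (k, b) F) (fun j => if j = k then 3 else 4) := by
  intro m hm j
  rw [mem_support_iff, coeff_pderiv] at hm
  have h1 : m + Finsupp.single (k, b) 1 ∈ F.support := by
    rw [mem_support_iff]
    exact left_ne_zero_of_mul hm
  have h2 := hF _ h1 j
  rw [Finsupp.add_apply, Finsupp.add_apply] at h2
  show m (j, 0) + m (j, 1) = if j = k then 3 else 4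
  by_cases hj : j = k
  · subst hj
    rw [if_pos rfl]
    have h3 : (Finsupp.single (j, b) 1 : Fin n × Fin 2 →₀ ℕ) (j, 0) +
        (Finsupp.single (j, b) 1 : Fin n × Fin 2 →₀ ℕ) (j, 1) = 1 := by
      fin_cases b <;> simp [Finsupp.single_apply]
    omega
  · rw [if_neg hj]
    have h3 : ∀ c, (Finsupp.single (k, b) 1 : Fin n × Fin 2 →₀ ℕ) (j, c) = 0 := fun c => by
      rw [Finsupp.single_apply, if_neg]
      intro h
      exact hj (congrArg Prod.fst h).symm
    rw [h3, h3] at h2
    omega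

lemma hom4_homE {F : MvPolynomial (Fin n × Fin 2) K} (hF : Hom4 F) : HomE F (fun _ => 4) :=
  fun m hm j => hF m hm j

lemma scale_F {F : MvPolynomial (Fin n × Fin 2) K} (hF : Hom4 F) (X : Fin n × Fin 2 → K) (a : Fin n → K) :
    eval (fun p => a p.1 * X p) F = (∏ j, a j) ^ 4 * eval X F := by
  rw [eval_scale (hom4_homE hF), Finset.prod_pow]

lemma scale_D {F : MvPolynomial (Fin n × Fin 2) K} (hF : Hom4 F) (X : Fin n × Fin 2 → K) (a : Fin n → K)
    (k : Fin n) (b : Fin 2) :
    a k * eval (fun p => a p.1 * X p) (pderiv (k, b) F) = (∏ j, a j) ^ 4 * eval X (pderiv (k, b) F) := by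
  rw [eval_scale (homE_pderiv hF k b), ← mul_assoc]
  congr 1
  rw [← Finset.prod_pow, ← Finset.mul_prod_erase Finset.univ _ (Finset.mem_univ k),
    ← Finset.mul_prod_erase Finset.univ _ (Finset.mem_univ k), if_pos rfl, ← mul_assoc]
  congr 1
  · ring
  · refine Finset.prod_congr rfl fun j hj => ?_
    rw [if_neg (Finset.ne_of_mem_erase hj)]

/-- The planes are permuted by the scalings. -/
lemma spec_scale {F : MvPolynomial (Fin n × Fin 2) K} (hF : Hom4 F) (X : Fin n × Fin 2 → K) (a : Fin n → K)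
    (J : Finset (Fin n)) (ha : ∀ j, a j ≠ 0) (h : SpecF F (fun p => a p.1 * X p) J) : SpecF F X J := by
  intro k hk b
  obtain ⟨c, hc⟩ := h k hk b
  refine ⟨a k * c, fun Y hY => ?_⟩
  have h1 := hc (fun p => a p.1 * Y p) (fun j hj b => by
    show a j * Y (j, b) = a j * X (j, b)
    rw [hY j hj b])
  have h2 := scale_D hF Y a k b
  rw [h1, scale_F hF] at h2
  have h3 : (∏ j, a j) ^ 4 ≠ 0 := pow_ne_zero _ (Finset.prod_ne_zero_iff.2 fun j _ => ha j)
  apply mul_left_cancel₀ h3
  rw [← h2]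
  ring

lemma spec_scale_iff {F : MvPolynomial (Fin n × Fin 2) K} (hF : Hom4 F) (X : Fin n × Fin 2 → K) (a : Fin n → K)
    (J : Finset (Fin n)) (ha : ∀ j, a j ≠ 0) : SpecF F (fun p => a p.1 * X p) J ↔ SpecF F X J := by
  refine ⟨spec_scale hF X a J ha, fun h => ?_⟩
  refine spec_scale hF _ (fun j => (a j)⁻¹) J (fun j => inv_ne_zero (ha j)) ?_
  have h1 : (fun p : Fin n × Fin 2 => (a p.1)⁻¹ * (a p.1 * X p)) = X := by
    funext p
    rw [← mul_assoc, inv_mul_cancel₀ (ha _), one_mul]
  show SpecF F (fun p : Fin n × Fin 2 => (a p.1)⁻¹ * (a p.1 * X p)) J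
  rw [h1]
  exact h

/-! ### Charts: values and derivatives -/

lemma eval_ch (F : MvPolynomial (Fin n × Fin 2) K) (ε : Fin n → Fin 2) (z : Fin n → K) :
    eval z (ch F ε) = eval (pt ε z) F := by
  have h : (eval z).comp (aeval (fun p : Fin n × Fin 2 => if p.2 = ε p.1 then 1 else X p.1) :
      MvPolynomial (Fin n × Fin 2) K →ₐ[K] MvPolynomial (Fin n) K).toRingHom = eval (pt ε z) := by
    refine ringHom_ext (fun a => ?_) (fun p => ?_)
    · simp
    · simp only [AlgHom.toRingHom_eq_coe, RingHom.coe_comp, RingHom.coe_coe, Function.comp_apply, aeval_X, eval_X]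
      unfold pt
      split_ifs <;> simp
  exact RingHom.congr_fun h F

lemma pderiv_ch (F : MvPolynomial (Fin n × Fin 2) K) (ε : Fin n → Fin 2) (k : Fin n) :
    pderiv k (ch F ε) = ch (pderiv (k, 1 - ε k) F) ε := by
  unfold ch
  induction F using MvPolynomial.induction_on with
  | C a => simp
  | add p q hp hq => rw [map_add, map_add, map_add, map_add, hp, hq]
  | mul_X p q hp =>
    rw [map_mul, pderiv_mul, pderiv_mul, map_add, map_mul, map_mul, hp, aeval_X]
    congr 2
    by_cases h : q.2 = ε q.1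
    · rw [if_pos h, pderiv_one, pderiv_X_of_ne, map_zero]
      intro h1
      rw [h1] at h
      exact fin2_ne _ h
    · rw [if_neg h]
      have h2 : q.2 = 1 - ε q.1 := (fin2_cases q.2 (ε q.1)).resolve_left h
      by_cases h3 : q.1 = k
      · have h4 : q = (k, 1 - ε k) := by
          rw [← h3]
          exact Prod.ext rfl h2
        rw [h3, pderiv_X_self, h4, pderiv_X_self, map_one]
      · rw [pderiv_X_of_ne h3, pderiv_X_of_ne, map_zero]
        intro h1
        rw [h1] at h3
        exact h3 rfl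

/-! ### Euler's formula -/

lemma euler {F : MvPolynomial (Fin n × Fin 2) K} (hF : Hom4 F) (k : Fin n) :
    X (k, 0) * pderiv (k, 0) F + X (k, 1) * pderiv (k, 1) F = 4 * F := by
  have h : ∀ m ∈ F.support, X (k, 0) * pderiv (k, 0) (monomial m (coeff m F)) +
      X (k, 1) * pderiv (k, 1) (monomial m (coeff m F)) = 4 * monomial m (coeff m F) := by
    intro m hm
    rw [X_mul_pderiv_monomial, X_mul_pderiv_monomial, ← add_smul, hF m hm k, nsmul_eq_mul, Nat.cast_ofNat]
  have e1 : ∀ p, pderiv p F = ∑ m ∈ F.support, pderiv p (monomial m (coeff m F)) := by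
    intro p
    conv_lhs => rw [F.as_sum]
    rw [map_sum]
  have e2 : 4 * F = ∑ m ∈ F.support, 4 * monomial m (coeff m F) := by
    conv_lhs => rw [F.as_sum]
    rw [Finset.mul_sum]
  rw [e1, e1, e2, Finset.mul_sum, Finset.mul_sum, ← Finset.sum_add_distrib]
  exact Finset.sum_congr rfl h

lemma euler_eval {F : MvPolynomial (Fin n × Fin 2) K} (hF : Hom4 F) (k : Fin n) (c : Fin 2) (Y : Fin n × Fin 2 → K) :
    Y (k, c) * eval Y (pderiv (k, c) F) + Y (k, 1 - c) * eval Y (pderiv (k, 1 - c) F) = 4 * eval Y F := by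
  have h := congrArg (eval Y) (euler hF k)
  simp only [map_add, map_mul, eval_X] at h
  have h4 : eval Y (4 : MvPolynomial (Fin n × Fin 2) K) = 4 := map_ofNat _ 4
  rw [h4] at h
  fin_cases c
  · exact h
  · rw [← h]
    exact add_comm _ _

/-! ### Special planes -/

lemma spec_of_specF {F : MvPolynomial (Fin n × Fin 2) K} (ε : Fin n → Fin 2) (z : Fin n → K) (J : Finset (Fin n))
    (h : SpecF F (pt ε z) J) : SpecN (ch F ε) z J := by
  intro k hk
  obtain ⟨c, hc⟩ := h k hk (1 - ε k)
  refine ⟨c, fun y hy => ?_⟩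
  rw [pderiv_ch, eval_ch, eval_ch]
  refine hc _ fun j hj b => ?_
  unfold pt
  rw [hy j hj]

lemma specF_of_spec [CharZero K] {F : MvPolynomial (Fin n × Fin 2) K} (hF : Hom4 F) (ε : Fin n → Fin 2)
    (z : Fin n → K) (J : Finset (Fin n)) (h : SpecN (ch F ε) z J) : SpecF F (pt ε z) J := by
  intro k hk
  obtain ⟨c, hc⟩ := h k hk
  -- points of the affine chart
  have h0 : ∀ Y, OnPF J (pt ε z) Y → (∀ j ∈ J, Y (j, ε j) ≠ 0) →
      eval Y (pderiv (k, 1 - ε k) F) = c * eval Y F := by
    intro Y hY hne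
    obtain ⟨a, ha⟩ : ∃ a : Fin n → K, a = fun j => (Y (j, ε j))⁻¹ := ⟨_, rfl⟩
    have hY1 : ∀ j, j ∉ J → Y (j, ε j) = 1 := by
      intro j hj
      rw [hY j hj]
      unfold pt
      rw [if_pos rfl]
    have hne' : ∀ j, Y (j, ε j) ≠ 0 := by
      intro j
      by_cases hj : j ∈ J
      · exact hne j hj
      · rw [hY1 j hj]
        exact one_ne_zero
    have ha0 : ∀ j, a j ≠ 0 := by
      intro j
      rw [ha]
      exact inv_ne_zero (hne' j)
    have ha1 : a k = 1 := by
      rw [ha]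
      show (Y (k, ε k))⁻¹ = 1
      rw [hY1 k hk, inv_one]
    have hpt : (fun p : Fin n × Fin 2 => a p.1 * Y p) = pt ε (fun j => a j * Y (j, 1 - ε j)) := by
      funext p
      obtain ⟨j, b⟩ := p
      unfold pt
      rcases fin2_cases b (ε j) with hb | hb
      · rw [if_pos hb, hb, ha]
        show (Y (j, ε j))⁻¹ * Y (j, ε j) = 1
        exact inv_mul_cancel₀ (hne' j)
      · rw [if_neg (by rw [hb]; exact fin2_ne _)]
        show a j * Y (j, b) = a j * Y (j, 1 - ε j)
        rw [hb]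
    have hon : OnPl J z (fun j => a j * Y (j, 1 - ε j)) := by
      intro j hj
      show a j * Y (j, 1 - ε j) = z j
      rw [ha]
      show (Y (j, ε j))⁻¹ * Y (j, 1 - ε j) = z j
      rw [hY1 j hj, inv_one, one_mul, hY j hj]
      unfold pt
      rw [if_neg (fin2_ne _)]
    have h1 := hc _ hon
    rw [pderiv_ch, eval_ch, eval_ch, ← hpt] at h1
    have h2 := scale_D hF Y a k (1 - ε k)
    rw [ha1, one_mul, h1, scale_F hF] at h2
    have h3 : (∏ j, a j) ^ 4 ≠ 0 := pow_ne_zero _ (Finset.prod_ne_zero_iff.2 fun j _ => ha0 j)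
    apply mul_left_cancel₀ h3
    rw [← h2]
    ring
  -- all points
  have h1 : ∀ Y, OnPF J (pt ε z) Y → eval Y (pderiv (k, 1 - ε k) F) = c * eval Y F := by
    obtain ⟨g, hg⟩ : ∃ g : Fin n × Fin 2 → MvPolynomial (Fin n × Fin 2) K,
        g = fun p => if p.1 ∈ J then X p else C (pt ε z p) := ⟨_, rfl⟩
    have hev : ∀ (Y : Fin n × Fin 2 → K) (G : MvPolynomial (Fin n × Fin 2) K),
        eval Y (aeval g G) = eval (fun p => if p.1 ∈ J then Y p else pt ε z p) G := by
      intro Y G
      have h : (eval Y).comp (aeval g :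
          MvPolynomial (Fin n × Fin 2) K →ₐ[K] MvPolynomial (Fin n × Fin 2) K).toRingHom =
          eval (fun p => if p.1 ∈ J then Y p else pt ε z p) := by
        refine ringHom_ext (fun a => ?_) (fun p => ?_)
        · simp
        · simp only [AlgHom.toRingHom_eq_coe, RingHom.coe_comp, RingHom.coe_coe, Function.comp_apply, aeval_X,
            eval_X, hg]
          split_ifs <;> simp
      exact RingHom.congr_fun h G
    have hz : aeval g (pderiv (k, 1 - ε k) F - C c * F) * ∏ j ∈ J, X (j, ε j) = 0 := by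
      apply MvPolynomial.funext
      intro Y
      rw [map_mul, map_zero, hev, map_prod]
      simp only [eval_X]
      by_cases hne : ∀ j ∈ J, Y (j, ε j) ≠ 0
      · have h2 := h0 (fun p => if p.1 ∈ J then Y p else pt ε z p) (fun j hj b => if_neg hj)
          (fun j hj => by
            show (if j ∈ J then Y (j, ε j) else pt ε z (j, ε j)) ≠ 0
            rw [if_pos hj]
            exact hne j hj)
        rw [map_sub, map_mul, eval_C, h2, sub_self, zero_mul]
      · push Not at hne
        obtain ⟨j, hj, hj0⟩ := hne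
        rw [Finset.prod_eq_zero hj hj0, mul_zero]
    have hz' : aeval g (pderiv (k, 1 - ε k) F - C c * F) = 0 := by
      rcases mul_eq_zero.1 hz with h | h
      · exact h
      · exfalso
        rw [Finset.prod_eq_zero_iff] at h
        obtain ⟨j, _, hj⟩ := h
        exact X_ne_zero _ hj
    intro Y hY
    have h2 := hev Y (pderiv (k, 1 - ε k) F - C c * F)
    rw [hz', map_zero] at h2
    have h3 : (fun p : Fin n × Fin 2 => if p.1 ∈ J then Y p else pt ε z p) = Y := by
      funext p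
      split_ifs with hp
      · rfl
      · exact (hY p.1 hp p.2).symm
    rw [h3, map_sub, map_mul, eval_C] at h2
    exact (sub_eq_zero.1 h2.symm)
  intro b
  rcases fin2_cases b (ε k) with hb | hb
  · refine ⟨4 - z k * c, fun Y hY => ?_⟩
    have h2 := euler_eval hF k (ε k) Y
    have h3 : Y (k, ε k) = 1 := by
      rw [hY k hk]
      unfold pt
      rw [if_pos rfl]
    have h4 : Y (k, 1 - ε k) = z k := by
      rw [hY k hk]
      unfold pt
      rw [if_neg (fin2_ne _)]
    rw [h3, h4, h1 Y hY, one_mul] at h2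
    rw [hb]
    linear_combination h2
  · refine ⟨c, fun Y hY => ?_⟩
    rw [hb]
    exact h1 Y hY

/-- finitely many special planes -/
lemma finSpec_ch [CharZero K] {F : MvPolynomial (Fin n × Fin 2) K} (hF : Hom4 F) (ε : Fin n → Fin 2)
    (h : FinSpecF F) : FinSpec (ch F ε) := by
  intro J hJ hJ'
  refine ((h J hJ hJ').image fun P => {y : Fin n → K | pt ε y ∈ P}).subset ?_
  rintro P ⟨z, hz, hs, rfl⟩
  refine ⟨_, ⟨pt ε z, ?_, specF_of_spec hF ε z J hs, rfl⟩, ?_⟩
  · rw [← eval_ch]
    exact hz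
  · ext y
    constructor
    · intro hy j hj
      obtain ⟨a, _, ha⟩ := hy j hj
      have h1 := ha (ε j)
      have h2 := ha (1 - ε j)
      unfold pt at h1 h2
      simp only [if_pos, if_neg (fin2_ne (ε j))] at h1 h2
      rw [mul_one] at h1
      rw [h2, ← h1, one_mul]
    · intro hy j hj
      refine ⟨1, one_ne_zero, fun b => ?_⟩
      rw [one_mul]
      unfold pt
      rw [hy j hj]

/-! ### The monomials of the charts -/

/-- The exponents in the chart. -/
noncomputable def red (ε : Fin n → Fin 2) (M : Fin n × Fin 2 →₀ ℕ) : Fin n →₀ ℕ :=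
  Finsupp.equivFunOnFinite.symm fun j => M (j, 1 - ε j)

omit [Field K] in
lemma red_apply (ε : Fin n → Fin 2) (M : Fin n × Fin 2 →₀ ℕ) (j : Fin n) : red ε M j = M (j, 1 - ε j) := rfl

lemma hom_red {F : MvPolynomial (Fin n × Fin 2) K} (hF : Hom4 F) {M : Fin n × Fin 2 →₀ ℕ} (hM : M ∈ F.support)
    (ε : Fin n → Fin 2) (j : Fin n) : M (j, ε j) = 4 - red ε M j ∧ red ε M j ≤ 4 := by
  have h1 := hF M hM j
  have h2 : M (j, 0) + M (j, 1) = M (j, ε j) + M (j, 1 - ε j) := add_two (fun b => M (j, b)) (ε j)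
  rw [red_apply]
  omega

lemma ch_eq (F : MvPolynomial (Fin n × Fin 2) K) (ε : Fin n → Fin 2) :
    ch F ε = ∑ M ∈ F.support, monomial (red ε M) (coeff M F) := by
  have h : ∀ M c, ch (monomial M c : MvPolynomial (Fin n × Fin 2) K) ε = monomial (red ε M) c := by
    intro M c
    unfold ch
    rw [aeval_monomial, monomial_eq, Finsupp.prod_fintype _ _ (fun _ => pow_zero _),
      Finsupp.prod_fintype _ _ (fun _ => pow_zero _), Fintype.prod_prod_type, algebraMap_eq]
    congr 1
    refine Finset.prod_congr rfl fun j _ => ?_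
    rw [prod_two _ (ε j)]
    simp only [if_true, one_pow, one_mul, if_neg (fin2_ne (ε j))]
    rw [red_apply]
  have h2 : ch F ε = ∑ M ∈ F.support, ch (monomial M (coeff M F)) ε := by
    unfold ch
    conv_lhs => rw [F.as_sum]
    rw [map_sum]
  rw [h2]
  exact Finset.sum_congr rfl fun M _ => h M _

lemma mem_supp_ch {R : Type} [CommRing R] (φ : K →+* R) {F : MvPolynomial (Fin n × Fin 2) K} (ε : Fin n → Fin 2)
    {m : Fin n →₀ ℕ} (hm : m ∈ (map φ (ch F ε)).support) : ∃ M ∈ F.support, red ε M = m := by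
  classical
  rw [mem_support_iff, coeff_map, ch_eq, coeff_sum] at hm
  have h1 : ∑ M ∈ F.support, coeff m (monomial (red ε M) (coeff M F)) ≠ 0 := by
    intro h
    rw [h, map_zero] at hm
    exact hm rfl
  obtain ⟨M, hM, hM'⟩ := Finset.exists_ne_zero_of_sum_ne_zero h1
  refine ⟨M, hM, ?_⟩
  by_contra hne
  rw [coeff_monomial, if_neg hne] at hM'
  exact hM' rfl

lemma degree_ch {F : MvPolynomial (Fin n × Fin 2) K} (hF : Hom4 F) (ε : Fin n → Fin 2) (j : Fin n) :
    (ch F ε).degreeOf j ≤ 4 := by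
  rw [degreeOf_le_iff]
  intro m hm
  obtain ⟨M, hM, rfl⟩ := mem_supp_ch (RingHom.id K) (F := F) ε (m := m) (by rw [map_id]; exact hm)
  exact (hom_red hF hM ε j).2

/-- a linear functional on the chart -/
lemma sum_ch {R : Type} [CommRing R] (φ : K →+* R) (F : MvPolynomial (Fin n × Fin 2) K) (ε : Fin n → Fin 2)
    (Φ : (Fin n →₀ ℕ) → R) : ∑ m ∈ (map φ (ch F ε)).support, coeff m (map φ (ch F ε)) * Φ m =
      ∑ M ∈ F.support, φ (coeff M F) * Φ (red ε M) := by
  classical
  have h1 : ∑ m ∈ (map φ (ch F ε)).support, coeff m (map φ (ch F ε)) * Φ m =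
      ∑ m ∈ F.support.image (red ε), coeff m (map φ (ch F ε)) * Φ m := by
    refine Finset.sum_subset ?_ ?_
    · intro m hm
      rw [Finset.mem_image]
      exact mem_supp_ch φ ε hm
    · intro m _ hm
      rw [notMem_support_iff.1 hm, zero_mul]
  rw [h1]
  have h2 : ∀ m, coeff m (map φ (ch F ε)) = ∑ M ∈ F.support, if red ε M = m then φ (coeff M F) else 0 := by
    intro m
    rw [coeff_map, ch_eq, coeff_sum, map_sum]
    refine Finset.sum_congr rfl fun M _ => ?_
    rw [coeff_monomial]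
    split_ifs
    · rfl
    · exact map_zero φ
  simp only [h2, Finset.sum_mul]
  rw [Finset.sum_comm]
  refine Finset.sum_congr rfl fun M hM => ?_
  rw [Finset.sum_eq_single (red ε M)]
  · rw [if_pos rfl]
  · intro m _ hm
    rw [if_neg (Ne.symm hm), zero_mul]
  · intro h
    exact absurd (Finset.mem_image_of_mem _ hM) h

/-! ### The derivatives of the binary forms -/

lemma sum_lc {R : Type} [CommRing R] {f : MvPolynomial (Fin n) R} {i : Fin n} (hf : ∀ m ∈ f.support, m i ≤ 4)
    (x : Fin n → Fin 2 → R) (w : ℕ → R) :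
    ∑ k : Fin 5, lc f x i k * w k = ∑ m ∈ f.support, f.coeff m * (mo m x i * w (m i)) := by
  simp only [lc, Finset.sum_filter, Finset.sum_mul]
  rw [Finset.sum_comm]
  refine Finset.sum_congr rfl fun m hm => ?_
  have h5 : m i < 5 := by
    have := hf m hm
    omega
  rw [Finset.sum_eq_single (⟨m i, h5⟩ : Fin 5)]
  · rw [if_pos rfl]
    ring
  · intro k _ hk
    rw [if_neg, zero_mul]
    intro h
    exact hk (Fin.ext h.symm)
  · intro h
    exact absurd (Finset.mem_univ _) h

omit [Field K] in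
lemma bd_zero {R : Type} [CommRing R] (a : Fin 5 → R) (y : Fin 2 → R) :
    bd a y 0 = ∑ k : Fin 5, a k * (((4 - (k : ℕ) : ℕ) : R) * y 0 ^ (3 - (k : ℕ)) * y 1 ^ (k : ℕ)) := by
  rw [Fin.sum_univ_five]
  simp [bd]
  ring

omit [Field K] in
lemma bd_one {R : Type} [CommRing R] (a : Fin 5 → R) (y : Fin 2 → R) :
    bd a y 1 = ∑ k : Fin 5, a k * (((k : ℕ) : R) * y 0 ^ (4 - (k : ℕ)) * y 1 ^ ((k : ℕ) - 1)) := by
  rw [Fin.sum_univ_five]
  simp [bd]
  ring

/-- the point with the coordinates `x`, after the exchange of the coordinates -/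
def pp {R : Type} (ε : Fin n → Fin 2) (x : Fin n → Fin 2 → R) (p : Fin n × Fin 2) : R :=
  if p.2 = ε p.1 then x p.1 0 else x p.1 1

omit [Field K] in
lemma prod_pp {R : Type} [CommRing R] (ε : Fin n → Fin 2) (x : Fin n → Fin 2 → R) (N : Fin n × Fin 2 →₀ ℕ) :
    ∏ p, pp ε x p ^ N p = ∏ j, (x j 0 ^ N (j, ε j) * x j 1 ^ N (j, 1 - ε j)) := by
  rw [Fintype.prod_prod_type]
  refine Finset.prod_congr rfl fun j _ => ?_
  rw [prod_two _ (ε j)]
  unfold pp
  simp only [if_true, if_neg (fin2_ne (ε j))]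

/-- the exponents of the derivative -/
noncomputable def sh (M : Fin n × Fin 2 →₀ ℕ) (q : Fin n × Fin 2) : Fin n × Fin 2 →₀ ℕ :=
  M - Finsupp.single q 1

omit [Field K] in
lemma sh_self (M : Fin n × Fin 2 →₀ ℕ) (q : Fin n × Fin 2) : sh M q q = M q - 1 := by
  unfold sh
  rw [Finsupp.tsub_apply, Finsupp.single_eq_same]

omit [Field K] in
lemma sh_ne (M : Fin n × Fin 2 →₀ ℕ) {q p : Fin n × Fin 2} (h : q ≠ p) : sh M q p = M p := by
  unfold sh
  rw [Finsupp.tsub_apply, Finsupp.single_apply, if_neg h, Nat.sub_zero]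

lemma aeval_pderiv {R : Type} [Field R] [Algebra K R] (F : MvPolynomial (Fin n × Fin 2) K) (ε : Fin n → Fin 2)
    (x : Fin n → Fin 2 → R) (i : Fin n) (b : Fin 2) : aeval (pp ε x) (pderiv (i, b) F) =
      ∑ M ∈ F.support, algebraMap K R (coeff M F) * (M (i, b) *
        ∏ j, (x j 0 ^ sh M (i, b) (j, ε j) * x j 1 ^ sh M (i, b) (j, 1 - ε j))) := by
  conv_lhs => rw [F.as_sum]
  rw [map_sum, map_sum]
  refine Finset.sum_congr rfl fun M _ => ?_
  rw [pderiv_monomial, aeval_monomial, Finsupp.prod_fintype _ _ (fun _ => pow_zero _), prod_pp, map_mul, map_natCast]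
  unfold sh
  ring

lemma smooth_ch {F : MvPolynomial (Fin n × Fin 2) K} (hF : Hom4 F) (ε : Fin n → Fin 2) (h : SmoothF F) :
    SmoothN (ch F ε) := by
  intro x hx
  obtain ⟨⟨i, b⟩, hp⟩ := h (pp ε x) (fun j => by
    by_contra hcon
    push Not at hcon
    apply hx j
    funext c
    fin_cases c
    · have := hcon (ε j)
      unfold pp at this
      simpa using this
    · have := hcon (1 - ε j)
      unfold pp at this
      simpa [fin2_ne] using this)
  have hdeg : ∀ m ∈ (map (algebraMap K (AlgebraicClosure K)) (ch F ε)).support, m i ≤ 4 := by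
    intro m hm
    obtain ⟨M, hM, rfl⟩ := mem_supp_ch _ ε hm
    exact (hom_red hF hM ε i).2
  rcases fin2_cases b (ε i) with hb | hb
  · refine ⟨i, 0, ?_⟩
    rw [bd_zero, sum_lc hdeg x (fun k => ((4 - k : ℕ) : AlgebraicClosure K) * x i 0 ^ (3 - k) * x i 1 ^ k),
      sum_ch (algebraMap K (AlgebraicClosure K)) F ε
      (fun m => mo m x i * (((4 - m i : ℕ) : AlgebraicClosure K) * x i 0 ^ (3 - m i) * x i 1 ^ m i))]
    rw [aeval_pderiv] at hp
    intro hz
    apply hp
    rw [← hz]
    refine Finset.sum_congr rfl fun M hM => ?_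
    congr 1
    obtain ⟨h1, h2⟩ := hom_red hF hM ε i
    rw [hb, h1, ← Finset.mul_prod_erase Finset.univ _ (Finset.mem_univ i)]
    have e1 : sh M (i, ε i) (i, ε i) = 3 - red ε M i := by
      rw [sh_self, h1]
      omega
    have e2 : sh M (i, ε i) (i, 1 - ε i) = red ε M i := by
      rw [sh_ne, red_apply]
      intro h3
      exact fin2_ne (ε i) (congrArg Prod.snd h3).symm
    have e3 : ∏ j ∈ Finset.univ.erase i, (x j 0 ^ sh M (i, ε i) (j, ε j) *
        x j 1 ^ sh M (i, ε i) (j, 1 - ε j)) = mo (red ε M) x i := by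
      unfold mo
      refine Finset.prod_congr rfl fun j hj => ?_
      have hji := Finset.ne_of_mem_erase hj
      have e4 : ∀ c, sh M (i, ε i) (j, c) = M (j, c) := fun c =>
        sh_ne M fun h3 => hji (congrArg Prod.fst h3).symm
      rw [e4, e4, (hom_red hF hM ε j).1, red_apply]
    rw [e1, e2, e3]
    ring
  · refine ⟨i, 1, ?_⟩
    rw [bd_one, sum_lc hdeg x (fun k => ((k : ℕ) : AlgebraicClosure K) * x i 0 ^ (4 - k) * x i 1 ^ (k - 1)),
      sum_ch (algebraMap K (AlgebraicClosure K)) F ε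
      (fun m => mo m x i * (((m i : ℕ) : AlgebraicClosure K) * x i 0 ^ (4 - m i) * x i 1 ^ (m i - 1)))]
    rw [aeval_pderiv] at hp
    intro hz
    apply hp
    rw [← hz]
    refine Finset.sum_congr rfl fun M hM => ?_
    congr 1
    obtain ⟨h1, h2⟩ := hom_red hF hM ε i
    rw [hb, ← Finset.mul_prod_erase Finset.univ _ (Finset.mem_univ i)]
    have e1 : sh M (i, 1 - ε i) (i, 1 - ε i) = red ε M i - 1 := by
      rw [sh_self, red_apply]
    have e2 : sh M (i, 1 - ε i) (i, ε i) = 4 - red ε M i := by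
      rw [sh_ne, h1]
      intro h3
      exact fin2_ne (ε i) (congrArg Prod.snd h3)
    have e3 : ∏ j ∈ Finset.univ.erase i, (x j 0 ^ sh M (i, 1 - ε i) (j, ε j) *
        x j 1 ^ sh M (i, 1 - ε i) (j, 1 - ε j)) = mo (red ε M) x i := by
      unfold mo
      refine Finset.prod_congr rfl fun j hj => ?_
      have hji := Finset.ne_of_mem_erase hj
      have e4 : ∀ c, sh M (i, 1 - ε i) (j, c) = M (j, c) := fun c =>
        sh_ne M fun h3 => hji (congrArg Prod.fst h3).symm
      rw [e4, e4, (hom_red hF hM ε j).1, red_apply]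
    have e5 : M (i, 1 - ε i) = red ε M i := rfl
    rw [e1, e2, e3, e5]
    ring

end field

/-- **Job CHF.** -/
theorem chf : S_CHF := by
  intro K _ _ n F hF ε
  exact ⟨degree_ch hF ε, smooth_ch hF ε, eval_ch F ε,
    fun z J => ⟨specF_of_spec hF ε z J, spec_of_specF ε z J⟩, finSpec_ch hF ε, scale_F hF,
    fun X a J ha => spec_scale_iff hF X a J ha⟩

end Pool.Agent.Q182.TT.CHF
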